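import Pool.Agent.PLG.Stmts

/-!
Row PRA of the squad PLG (MP_1fc801_co): a projection which preserves all the lines of a block.
-/

set_option autoImplicit false

namespace Pool.Agent.PLG.H14

open Module

theorem pra (grf : GrfStmt) (alg : AlgStmt) : PraStmt := by
  intro M W t₁ t₂ t₃ x y hfin h2 h1W h2W h3W h12 h13 h23 hx hy hx0 hq
  have hd21 : t₂ - t₁ ≠ 0 := sub_ne_zero.2 (Ne.symm h12)
  have hxre : x.re ≠ 0 := fun h => hx0 (eq_zero_of_re hx.2 h)
  have hy0 : y ≠ 0 := by
    intro h
    refine hq 0 (Subalgebra.zero_mem _) ?_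
    rw [h]
    simp
  have hyre : y.re ≠ 0 := fun h => hy0 (eq_zero_of_re hy.2 h)
  have hxim : x.im = t₁ * x.re := hx.2
  have hyim : y.im = t₁ * y.re := hy.2
  -- the algebra is finite dimensional
  let F : Subalgebra ℚ ℝ := Algebra.adjoin ℚ (Rat4 W t₁ t₂)
  have hFx : ∀ q ∈ F, ((q : ℝ) : ℂ) * x ∈ M := fun q hqF =>
    alg M W t₁ t₂ h2 h1W h2W h12 q hqF t₁ h1W x hx
  let ι : F →ₗ[ℚ] M :=
    { toFun := fun q => ⟨((q : ℝ) : ℂ) * x, hFx q q.2⟩
      map_add' := by
        intro a b
        apply Subtype.ext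
        simp only [Subalgebra.coe_add, Complex.ofReal_add, Submodule.coe_add]
        ring
      map_smul' := by
        intro c a
        apply Subtype.ext
        simp only [RingHom.id_apply, Submodule.coe_smul, Subalgebra.coe_smul]
        rw [Rat.smul_def, Rat.smul_def]
        push_cast
        ring }
  have hι : Function.Injective ι := by
    intro a b hab
    have h := congrArg (fun z : M => ((z : ℂ)).re) hab
    have h' : (a : ℝ) * x.re = (b : ℝ) * x.re := by
      have h3 : (((a : ℝ) : ℂ) * x).re = (((b : ℝ) : ℂ) * x).re := h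
      simpa [Complex.mul_re] using h3
    exact Subtype.ext (mul_right_cancel₀ hxre h')
  haveI : FiniteDimensional ℚ F := FiniteDimensional.of_injective ι hι
  have hfield : IsField F := by
    haveI : Algebra.IsIntegral ℚ F := inferInstance
    exact isField_of_isIntegral_of_isField' (Field.toIsField ℚ)
  let K : IntermediateField ℚ ℝ := F.toIntermediateField' hfield
  have hKmem : ∀ q : ℝ, q ∈ K ↔ q ∈ F := fun q => Iff.rfl
  -- the functional
  have hnot : y.re ∉ Submodule.span K ({x.re} : Set ℝ) := by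
    intro h
    obtain ⟨a, ha⟩ := Submodule.mem_span_singleton.1 h
    have ha' : (a : ℝ) * x.re = y.re := by
      rw [← ha]
      rfl
    refine hq a a.2 ?_
    refine eq_of_re (t := t₁) ?_ hyim ?_
    · simp only [Complex.mul_im, Complex.mul_re, Complex.ofReal_re, Complex.ofReal_im, zero_mul,
        sub_zero, add_zero, hxim]
      ring
    · simp only [Complex.mul_re, Complex.ofReal_re, Complex.ofReal_im, zero_mul, sub_zero]
      exact ha'
  obtain ⟨g, hg1, hg2⟩ := Submodule.exists_le_ker_of_notMem hnot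
  have hgx : g x.re = 0 := by
    have h := hg2 (Submodule.mem_span_singleton_self x.re)
    exact h
  obtain ⟨φ, hφx, hφy⟩ : ∃ φ : ℝ →ₗ[K] K, φ x.re = 0 ∧ φ y.re = 1 := by
    refine ⟨(g y.re)⁻¹ • g, ?_, ?_⟩
    · rw [LinearMap.smul_apply, hgx, smul_zero]
    · rw [LinearMap.smul_apply, smul_eq_mul, inv_mul_cancel₀ hg1]
  let r : ℝ := (t₃ - t₁) / (t₃ - t₂)
  have hr0 : r ≠ 0 := div_ne_zero (sub_ne_zero.2 (Ne.symm h13)) (sub_ne_zero.2 (Ne.symm h23))
  let α : ℂ → ℝ := fun m => (t₂ * m.re - m.im) / (t₂ - t₁)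
  let β : ℂ → ℝ := fun m => (m.im - t₁ * m.re) / (t₂ - t₁)
  have hα : ∀ m n, α (m + n) = α m + α n := by
    intro m n
    simp only [α, Complex.add_re, Complex.add_im]
    ring
  have hβ : ∀ m n, β (m + n) = β m + β n := by
    intro m n
    simp only [β, Complex.add_re, Complex.add_im]
    ring
  let π : ℂ →+ ℂ := AddMonoidHom.mk'
    (fun m => (((φ (α m) : K) : ℝ) : ℂ) * y + ((r * ((φ (β m / r) : K) : ℝ) : ℝ) : ℂ) * sh t₂ y)
    (by
      intro m n
      have e1 : φ (α (m + n)) = φ (α m) + φ (α n) := by rw [hα, map_add]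
      have e2 : φ (β (m + n) / r) = φ (β m / r) + φ (β n / r) := by
        rw [hβ, add_div, map_add]
      simp only [e1, e2]
      push_cast
      ring)
  have hπ : ∀ m, π m = (((φ (α m) : K) : ℝ) : ℂ) * y +
      ((r * ((φ (β m / r) : K) : ℝ) : ℝ) : ℂ) * sh t₂ y := fun m => rfl
  -- values on the three types of lines
  have v1 : ∀ m : ℂ, m.im = t₁ * m.re → π m = (((φ m.re : K) : ℝ) : ℂ) * y := by
    intro m hm
    have a1 : α m = m.re := by
      simp only [α, hm]
      field_simp
    have a2 : β m = 0 := by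
      simp only [β, hm]
      simp
    rw [hπ, a1, a2, zero_div, map_zero]
    simp
  have v2 : ∀ m : ℂ, m.im = t₂ * m.re →
      π m = ((r * ((φ (m.re / r) : K) : ℝ) : ℝ) : ℂ) * sh t₂ y := by
    intro m hm
    have a1 : α m = 0 := by
      simp only [α, hm]
      simp
    have a2 : β m = m.re := by
      simp only [β, hm]
      field_simp
    rw [hπ, a1, a2, map_zero]
    simp
  have v3 : ∀ k ∈ W, k ≠ t₁ → k ≠ t₂ → ∀ m : ℂ, m.im = k * m.re →
      π m = (((φ (α m) : K) : ℝ) : ℂ) * (y - (((k - t₁) / (k - t₂) : ℝ) : ℂ) * sh t₂ y) := by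
    intro k hkW hk1 hk2 m hm
    have hd1 : k - t₁ ≠ 0 := sub_ne_zero.2 hk1
    have hd2 : k - t₂ ≠ 0 := sub_ne_zero.2 hk2
    have hlam : lam t₁ t₂ k t₃ ∈ K := by
      rw [hKmem]
      exact Algebra.subset_adjoin ⟨k, hkW, t₃, h3W, hk1, hk2, Ne.symm h13, Ne.symm h23, rfl⟩
    have a2 : β m / r = -((⟨lam t₁ t₂ k t₃, hlam⟩ : K) • α m) := by
      have e : ((⟨lam t₁ t₂ k t₃, hlam⟩ : K) • α m) = lam t₁ t₂ k t₃ * α m := rfl
      rw [e]
      have e1 : lam t₁ t₂ k t₃ = ((k - t₁) / (k - t₂)) / r := rfl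
      rw [e1]
      have e2 : β m = -(((k - t₁) / (k - t₂)) * α m) := by
        simp only [α, β, hm]
        field_simp
        ring
      rw [e2]
      field_simp
    rw [hπ, a2, map_neg, map_smul]
    have e3 : r * (((-((⟨lam t₁ t₂ k t₃, hlam⟩ : K) • φ (α m)) : K)) : ℝ) =
        -((k - t₁) / (k - t₂) * ((φ (α m) : K) : ℝ)) := by
      have e4 : (((-((⟨lam t₁ t₂ k t₃, hlam⟩ : K) • φ (α m)) : K)) : ℝ) =
          -(lam t₁ t₂ k t₃ * ((φ (α m) : K) : ℝ)) := rfl
      rw [e4]
      have e1 : lam t₁ t₂ k t₃ = ((k - t₁) / (k - t₂)) / r := rfl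
      rw [e1]
      field_simp
    rw [e3]
    push_cast
    ring
  have hsh : (sh t₂ y).re = y.re ∧ (sh t₂ y).im = t₂ * y.re := ⟨rfl, rfl⟩
  refine ⟨π, ?_, ?_, ?_⟩
  · intro t htW m hm
    have hmim : m.im = t * m.re := hm.2
    by_cases ht1 : t = t₁
    · subst ht1
      rw [v1 m hmim]
      simp only [Complex.mul_im, Complex.mul_re, Complex.ofReal_re, Complex.ofReal_im, zero_mul,
        sub_zero, add_zero, hyim]
      ring
    · by_cases ht2 : t = t₂
      · subst ht2
        rw [v2 m hmim]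
        simp only [Complex.mul_im, Complex.mul_re, Complex.ofReal_re, Complex.ofReal_im, zero_mul,
          sub_zero, add_zero, hsh.1, hsh.2]
        ring
      · rw [v3 t htW ht1 ht2 m hmim]
        have hd2 : t - t₂ ≠ 0 := sub_ne_zero.2 ht2
        simp only [Complex.mul_im, Complex.mul_re, Complex.ofReal_re, Complex.ofReal_im, zero_mul,
          sub_zero, add_zero, Complex.sub_re, Complex.sub_im, hsh.1, hsh.2, hyim]
        field_simp
        ring
  · rw [v1 x hxim, hφx]
    simp
  · intro t htW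
    by_cases ht1 : t = t₁
    · subst ht1
      refine ⟨y, hy, ?_⟩
      rw [v1 y hyim, hφy]
      simpa using hy0
    · by_cases ht2 : t = t₂
      · subst ht2
        obtain ⟨g1, -, -⟩ := grf M W t₁ t t₃ h2 h1W h2W h3W h12 (Ne.symm h13) (Ne.symm h23)
        have hm := (g1 y hy).1
        have him : ((((t₃ - t₁) / (t₃ - t) : ℝ) : ℂ) * sh t y).im =
            t * ((((t₃ - t₁) / (t₃ - t) : ℝ) : ℂ) * sh t y).re := by
          simp only [Complex.mul_im, Complex.mul_re, Complex.ofReal_re, Complex.ofReal_im,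
            zero_mul, sub_zero, add_zero, hsh.1, hsh.2]
          ring
        refine ⟨(((t₃ - t₁) / (t₃ - t) : ℝ) : ℂ) * sh t y, ⟨hm, him⟩, ?_⟩
        rw [v2 _ him]
        have e1 : ((((t₃ - t₁) / (t₃ - t) : ℝ) : ℂ) * sh t y).re / r = y.re := by
          have e2 : ((((t₃ - t₁) / (t₃ - t) : ℝ) : ℂ) * sh t y).re = r * y.re := by
            simp only [Complex.mul_re, Complex.ofReal_re, Complex.ofReal_im, zero_mul, sub_zero,
              hsh.1]
            rfl
          rw [e2]
          field_simp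
        rw [e1, hφy]
        intro h
        have h' := congrArg Complex.re h
        simp only [Complex.mul_re, Complex.ofReal_re, Complex.ofReal_im, zero_mul, sub_zero,
          hsh.1, Complex.zero_re] at h'
        have h1 : (((1 : K) : ℝ)) = 1 := rfl
        rw [h1, mul_one] at h'
        exact (mul_ne_zero hr0 hyre) h'
      · obtain ⟨g1, -, -⟩ := grf M W t₁ t₂ t h2 h1W h2W htW h12 ht1 ht2
        obtain ⟨hm, hsl⟩ := g1 y hy
        have hd1 : t - t₁ ≠ 0 := sub_ne_zero.2 ht1
        have hd2 : t - t₂ ≠ 0 := sub_ne_zero.2 ht2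
        refine ⟨y - (((t - t₁) / (t - t₂) : ℝ) : ℂ) * sh t₂ y,
          ⟨M.sub_mem hy.1 hm, hsl⟩, ?_⟩
        rw [v3 t htW ht1 ht2 _ hsl]
        have e1 : α (y - (((t - t₁) / (t - t₂) : ℝ) : ℂ) * sh t₂ y) = y.re := by
          simp only [α, Complex.mul_im, Complex.mul_re, Complex.ofReal_re, Complex.ofReal_im,
            zero_mul, sub_zero, add_zero, Complex.sub_re, Complex.sub_im, hsh.1, hsh.2, hyim]
          field_simp
          ring
        rw [e1, hφy]
        intro h
        have h' := congrArg Complex.re h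
        have h1 : (((1 : K) : ℝ)) = 1 := rfl
        rw [h1] at h'
        simp only [Complex.mul_re, Complex.ofReal_re, Complex.ofReal_im, zero_mul, sub_zero,
          Complex.sub_re, hsh.1, Complex.zero_re, one_mul] at h'
        have h2 : y.re - (t - t₁) / (t - t₂) * y.re = (t₁ - t₂) / (t - t₂) * y.re := by
          field_simp
          ring
        rw [h2] at h'
        exact (mul_ne_zero (div_ne_zero (sub_ne_zero.2 h12) hd2) hyre) h'

end Pool.Agent.PLG.H14
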